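import Pool.Agent.Y925.EK.PhysA

/-! The passage from the modes to the fields (project EK). -/

open Set Filter Topology MeasureTheory

set_option autoImplicit false

namespace Pool.Agent.Y925.EK

open Pool.Agent.Y5 Pool.Agent.Y5.D Pool.Agent.Y6.K
open Pool.Agent.Y275.ND (syn)

theorem t_PHYSK : S_PHYSK := by
  intro hF hB hC hDat
  obtain ⟨J, o, σ, τ, N, e, h, hK, hch, hW, he0, hAN⟩ := hC
  obtain ⟨S, hS, T, z, hT, hT30, hsol, hinit, huniq, hen, hblow⟩ :=
    hB J o σ τ Ac _ N hK hch hW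
  obtain ⟨hip, hcnv, hdir⟩ := hF
  have hN := hW.one
  obtain ⟨p, hp⟩ := hW.summ
  -- decay
  have hdec : ∀ T' < T, ∀ k : ℕ, ∃ Mk, ∀ t ∈ Icc 0 T', ∀ a, N a ^ k * |z a t| ≤ Mk :=
    fun T' hT' k => hsol.reg k T' hT'
  have hgood : ∀ t ∈ Ico 0 T, Summable (fun a => |z a t|) := by
    intro t ht
    obtain ⟨Mk, hMk⟩ := hdec t ht.2 p
    exact sum0_of_dec hN hp Mk (fun a => z a t) (hMk t ⟨ht.1, le_rfl⟩)
  set V : ℝ → Fam := fun t => syn e (fun a => z a t) with hVdef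
  have hVb : ∀ m : ℕ, ∀ T' < T, ∃ Mb, ∀ t ∈ Icc 0 T', ∀ k, ‖vec k‖ ^ m * ‖V t k‖ ≤ Mb := by
    intro m T' hT'
    obtain ⟨Mk, hMk⟩ := hdec T' hT' (m + p)
    refine ⟨Mk * ∑' a, (N a ^ p)⁻¹, fun t ht k => ?_⟩
    have ht' : t ∈ Ico 0 T := ⟨ht.1, lt_of_le_of_lt ht.2 hT'⟩
    have h1 := sum_of_dec hN hp m Mk (fun a => z a t) (hMk t ht)
    exact (syn_norm h hN m (hgood t ht') h1.1 k).trans h1.2
  have hVot : ∀ t ∈ Ico 0 T, OT (V t) := fun t ht => syn_ot h (hgood t ht)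
  have hVrap : ∀ t ∈ Ico 0 T, Rap (V t) := by
    intro t ht m
    obtain ⟨Mb, hMb⟩ := hVb m t ht.2
    exact ⟨Mb, hMb t ⟨ht.1, le_rfl⟩⟩
  have hipz : ∀ t ∈ Ico 0 T, ∀ a, ip (fieldOf (V t)) (fieldOf (e a)) = z a t := by
    intro t ht a
    rw [hip _ _ (hVot t ht) (hVrap t ht) (h.ot a) (rap_e h hN a)]
    exact pair_syn_e h (hgood t ht) a
  -- the operator
  set s : Ix J → ℝ := fun i => Sum.elim (fun _ => 0) (fun j => S (o j) * τ j) i with hs
  have hKz : ∀ (y : Ix J → ℝ) (i : Ix J), Kz S o σ τ y i = s i * y (Sum.map id σ i) := by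
    intro y i
    cases i with
    | inl n => simp [Kz, hs]
    | inr j => simp [Kz, hs]
  have hu0 : fieldOf (e (Sum.inl 0)) = u0 := by rw [he0]; exact hDat
  refine ⟨Ix J, fun a => fieldOf (e a), N, Sum.map id σ, s, T, fun t => fieldOf (V t),
    ?_, hT, hT30, ?_, ?_, ?_, ?_, ?_⟩
  · -- Neutral
    refine ⟨fun i => ⟨e i, h.ot i, h.supp i, rfl⟩, ?_, ?_, ?_, ?_, ?_⟩
    · intro i j
      rw [hip _ _ (h.ot i) (rap_e h hN i) (h.ot j) (rap_e h hN j)]
      exact h.orth i j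
    · rintro v ⟨W, hW1, hW2, rfl⟩ hz y
      have h1 : ∀ k, W k = 0 := by
        intro k
        rw [h.recon W hW1 k]
        have : ∀ a, pair W (e a) • e a k = 0 := by
          intro a
          have h2 := hz a
          rw [hip _ _ hW1 hW2 (h.ot a) (rap_e h hN a)] at h2
          rw [h2, zero_smul]
        simp [this]
      unfold fieldOf
      simp [h1]
    · intro i
      cases i with
      | inl n => rfl
      | inr j => simp [hK.inv]
    · intro i
      cases i with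
      | inl n => rfl
      | inr j => simpa using h.grp j
    · intro i
      cases i with
      | inl n => simp [hs]
      | inr j => simp [hs, hK.grp, hK.skew]
  · -- SolK
    refine ⟨⟨V, fun t ht => ⟨hVot t ht, rfl⟩, hVb⟩, ?_⟩
    intro i t ht
    have h1 := hsol.deriv i t ht
    have h2 : HasDerivWithinAt (fun τ => ip (fieldOf (V τ)) (fieldOf (e i)))
        (Kz S o σ τ (fun a => z a t) i +
          qd (fun i a b => bil (e a) (e b) (e i)) (fun a => z a t) i)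
        (Ico 0 T) t :=
      h1.congr (fun τ hτ => hipz τ hτ i) (hipz t ht i)
    refine h2.congr_deriv ?_
    rw [hipz t ht (Sum.map id σ i), hcnv _ _ (hVot t ht) (hVrap t ht) (h.ot i) (rap_e h hN i),
      bil_syn h hN (hgood t ht) i, hKz]
    ring
  · -- initial datum
    show fieldOf (V 0) = u0
    rw [hVdef]
    simp only
    rw [syn_init hinit.1 hinit.2.1 hinit.2.2, hu0]
  · -- uniqueness
    intro T' v hT' hv hv0
    obtain ⟨V', hV', hV'b⟩ := hv.reg
    have hrap : ∀ t ∈ Ico 0 T', Rap (V' t) := by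
      intro t ht m
      obtain ⟨Mb, hMb⟩ := hV'b m t ht.2
      exact ⟨Mb, hMb t ⟨ht.1, le_rfl⟩⟩
    set z' : Ix J → ℝ → ℝ := fun a t => pair (V' t) (e a) with hz'
    have hipz' : ∀ t ∈ Ico 0 T', ∀ a, ip (v t) (fieldOf (e a)) = z' a t := by
      intro t ht a
      rw [(hV' t ht).2, hip _ _ (hV' t ht).1 (hrap t ht) (h.ot a) (rap_e h hN a)]
    have hreg' : ∀ k : ℕ, ∀ T'' < T', ∃ M, ∀ t ∈ Icc 0 T'', ∀ i, N i ^ k * |z' i t| ≤ M := by
      intro k T'' hT''
      obtain ⟨μ, hμ⟩ := hV'b (2 * k) T'' hT''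
      exact ⟨24 * μ, fun t ht i => coef_dec h (V' t) k μ (hμ t ht) hN i⟩
    have hgood' : ∀ t ∈ Ico 0 T', Summable (fun a => |z' a t|) := by
      intro t ht
      obtain ⟨Mk, hMk⟩ := hreg' p t ht.2
      exact sum0_of_dec hN hp Mk (fun a => z' a t) (hMk t ⟨ht.1, le_rfl⟩)
    have hexp : ∀ t ∈ Ico 0 T', V' t = syn e (fun a => z' a t) := by
      intro t ht
      funext k
      exact h.recon (V' t) (hV' t ht).1 k
    have h0mem : (0:ℝ) ∈ Ico 0 T' := ⟨le_rfl, hT'⟩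
    have hz0 : ∀ a, z' a 0 = pair (e (Sum.inl 0)) (e a) := by
      intro a
      rw [← hipz' 0 h0mem a, hv0, ← hu0,
        hip _ _ (h.ot _) (rap_e h hN _) (h.ot a) (rap_e h hN a)]
    have hderiv' : ∀ i, ∀ t ∈ Ico 0 T', HasDerivWithinAt (z' i)
        (Kz S o σ τ (fun a => z' a t) i +
          qd (fun i a b => bil (e a) (e b) (e i)) (fun a => z' a t) i)
        (Ico 0 T') t := by
      intro i t ht
      have h1 := hv.eqn i t ht
      have h2 : HasDerivWithinAt (z' i)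
          (s i * ip (v t) (fieldOf (e (Sum.map id σ i))) - cnv (v t) (fieldOf (e i)))
          (Ico 0 T') t :=
        h1.congr (fun τ hτ => (hipz' τ hτ i).symm) (hipz' t ht i).symm
      refine h2.congr_deriv ?_
      rw [hipz' t ht (Sum.map id σ i), (hV' t ht).2,
        hcnv _ _ (hV' t ht).1 (hrap t ht) (h.ot i) (rap_e h hN i),
        bil_syn h hN (hgood' t ht) i, ← hexp t ht, hKz]
      ring
    have hksol : KSol S o σ τ (fun i a b => bil (e a) (e b) (e i)) N T' z' := ⟨hderiv', hreg'⟩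
    have hinit' : Init z' := by
      refine ⟨?_, fun n => ?_, fun w => ?_⟩
      · rw [hz0]; exact (h.orth _ _).1 rfl
      · rw [hz0]; exact (h.orth _ _).2 (by simp)
      · rw [hz0]; exact (h.orth _ _).2 (by simp)
    obtain ⟨h1, h2⟩ := huniq T' z' hT' hksol hinit'
    refine ⟨h1, fun t ht => ?_⟩
    rw [(hV' t ht).2, hexp t ht]
    have h3 : (fun a => z' a t) = fun a => z a t := funext (fun a => h2 a t ht)
    rw [h3]
  · -- energy
    intro t ht
    rw [hip _ _ (hVot t ht) (hVrap t ht) (hVot t ht) (hVrap t ht), pair_self h hN (hgood t ht),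
      (hen t ht).2, ← hu0, hip _ _ (h.ot _) (rap_e h hN _) (h.ot _) (rap_e h hN _)]
    exact ((h.orth _ _).1 rfl).symm
  · -- blow-up
    intro M
    obtain ⟨t, ht, n, hn⟩ := hblow (10 * (|M| + 1))
    refine ⟨t, ht, ?_⟩
    rw [hdir _ (hVot t ht) (hVrap t ht)]
    have h1 := dir_ge h (V t) (Pool.Agent.Y691.ND.F.sum2 (hVrap t ht)) hN (Sum.inl n)
    rw [pair_syn_e h (hgood t ht) (Sum.inl n)] at h1
    have h2 := hAN n
    have hM : 0 ≤ |M| := abs_nonneg M
    have hMle : M ≤ |M| := le_abs_self M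
    set x := z (Sum.inl n) t with hx
    set D := ∑' k, ‖vec k‖ ^ 2 * ‖V t k‖ ^ 2 with hD
    have h3 : (10 * (|M| + 1)) ^ 2 < (Ac n * |x|) ^ 2 :=
      pow_lt_pow_left₀ hn (by positivity) (by norm_num)
    have h4 : (Ac n * |x|) ^ 2 ≤ 100 * D := by
      calc (Ac n * |x|) ^ 2 = Ac n ^ 2 * x ^ 2 := by rw [mul_pow, sq_abs]
        _ ≤ 100 * N (Sum.inl n) * x ^ 2 := mul_le_mul_of_nonneg_right h2 (sq_nonneg _)
        _ = 100 * (N (Sum.inl n) * x ^ 2) := by ring
        _ ≤ 100 * D := by linarith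
    have h5 : (|M| + 1) ^ 2 < D := by nlinarith
    have h6 : |M| + 1 ≤ (|M| + 1) ^ 2 := by nlinarith
    have h7 : (1 : ℝ) ≤ (2 * Real.pi) ^ 2 := by
      have := Real.pi_gt_three
      nlinarith
    have h8 : D ≤ (2 * Real.pi) ^ 2 * D := by
      have : 0 ≤ D := by linarith
      nlinarith
    linarith

end Pool.Agent.Y925.EK
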