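import Pool.Agent.Y6.K.Stm
import Pool.Agent.Y275.ND.A3
import Pool.Agent.Y691.ND.FLDB

/-! Expansion with respect to the system of modes (project EK). -/

open Set Filter Topology MeasureTheory

set_option autoImplicit false

namespace Pool.Agent.Y925.EK

open Pool.Agent.Y5 Pool.Agent.Y5.D Pool.Agent.Y6.K
open Pool.Agent.Y275.ND (syn)

variable {J : Type} {o : J → ℕ} {σ : J → J} {N : Ix J → ℝ} {e : Ix J → Fam}

lemma inner_summable (h : Modes o σ N e) (V : Fam) (a : Ix J) :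
    Summable (fun k => inner ℝ (V k) (e a k)) := by
  apply summable_of_hasFiniteSupport
  refine (h.few a).1.subset ?_
  intro k hk
  simp only [Function.mem_support, ne_eq] at hk
  intro h0
  apply hk
  rw [h0, inner_zero_right]

lemma e_summable (h : Modes o σ N e) (a : Ix J) : Summable (fun k => ‖e a k‖) := by
  apply summable_of_hasFiniteSupport
  refine (h.few a).1.subset ?_
  intro k hk
  simp only [Function.mem_support, ne_eq, norm_eq_zero] at hk
  exact hk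

lemma e_le (h : Modes o σ N e) (a : Ix J) (k : Z3) : ‖e a k‖ ≤ 1 := by
  have h1 := (h.orth a a).1 rfl
  unfold pair at h1
  have h2 := (inner_summable h (e a) a).le_tsum k (fun _ _ => real_inner_self_nonneg)
  rw [h1, real_inner_self_eq_norm_sq] at h2
  exact (sq_le_one_iff₀ (norm_nonneg _)).mp h2

lemma few_card (h : Modes o σ N e) (a : Ix J) : ((h.few a).1.toFinset.card : ℝ) ≤ 24 := by
  have h1 := (h.few a).2
  rw [Set.ncard_eq_toFinset_card _ (h.few a).1] at h1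
  exact_mod_cast h1

lemma l1 (h : Modes o σ N e) (a : Ix J) : ∑' k, ‖e a k‖ ≤ 24 := by
  rw [tsum_eq_sum (s := (h.few a).1.toFinset)]
  · calc ∑ k ∈ (h.few a).1.toFinset, ‖e a k‖ ≤ ∑ _k ∈ (h.few a).1.toFinset, (1 : ℝ) :=
          Finset.sum_le_sum (fun k _ => e_le h a k)
      _ = (h.few a).1.toFinset.card := by simp
      _ ≤ 24 := few_card h a
  · intro k hk
    rw [Set.Finite.mem_toFinset] at hk
    simp only [ne_eq, Set.mem_setOf_eq, not_not] at hk
    rw [hk, norm_zero]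

lemma pair_eq_sum (h : Modes o σ N e) (V : Fam) (a : Ix J) :
    pair V (e a) = ∑ k ∈ (h.few a).1.toFinset, inner ℝ (V k) (e a k) := by
  unfold pair
  apply tsum_eq_sum
  intro k hk
  rw [Set.Finite.mem_toFinset] at hk
  simp only [ne_eq, Set.mem_setOf_eq, not_not] at hk
  rw [hk, inner_zero_right]

/-- decay of the coefficients -/
lemma coef_dec (h : Modes o σ N e) (V : Fam) (p : ℕ) (μ : ℝ)
    (hV : ∀ k, ‖vec k‖ ^ (2 * p) * ‖V k‖ ≤ μ) (hN : ∀ i, 1 ≤ N i) (a : Ix J) :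
    N a ^ p * |pair V (e a)| ≤ 24 * μ := by
  have hμ : 0 ≤ μ := (mul_nonneg (pow_nonneg (norm_nonneg _) _) (norm_nonneg _)).trans (hV 0)
  have hNa : 0 ≤ N a ^ p := pow_nonneg (by linarith [hN a]) _
  rw [pair_eq_sum h]
  calc N a ^ p * |∑ k ∈ (h.few a).1.toFinset, inner ℝ (V k) (e a k)|
      ≤ N a ^ p * ∑ k ∈ (h.few a).1.toFinset, |inner ℝ (V k) (e a k)| :=
        mul_le_mul_of_nonneg_left (Finset.abs_sum_le_sum_abs _ _) hNa
    _ = ∑ k ∈ (h.few a).1.toFinset, N a ^ p * |inner ℝ (V k) (e a k)| := by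
        rw [Finset.mul_sum]
    _ ≤ ∑ _k ∈ (h.few a).1.toFinset, μ := by
        refine Finset.sum_le_sum (fun k hk => ?_)
        rw [Set.Finite.mem_toFinset] at hk
        have h1 : |inner ℝ (V k) (e a k)| ≤ ‖V k‖ * 1 :=
          (abs_real_inner_le_norm _ _).trans
            (mul_le_mul_of_nonneg_left (e_le h a k) (norm_nonneg _))
        have h2 := hV k
        rw [pow_mul, h.supp a k hk] at h2
        calc N a ^ p * |inner ℝ (V k) (e a k)| ≤ N a ^ p * (‖V k‖ * 1) :=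
              mul_le_mul_of_nonneg_left h1 hNa
          _ = N a ^ p * ‖V k‖ := by rw [mul_one]
          _ ≤ μ := h2
    _ = (h.few a).1.toFinset.card * μ := by rw [Finset.sum_const, nsmul_eq_mul]
    _ ≤ 24 * μ := mul_le_mul_of_nonneg_right (few_card h a) hμ

lemma pow_e_le (h : Modes o σ N e) (hN : ∀ i, 1 ≤ N i) (a : Ix J) (k : Z3) (m : ℕ) :
    ‖vec k‖ ^ m * ‖e a k‖ ≤ N a ^ m := by
  have hNa := hN a
  by_cases hk : e a k = 0
  · rw [hk, norm_zero, mul_zero]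
    exact pow_nonneg (by linarith) _
  · have h1 := h.supp a k hk
    have h2 : 1 ≤ ‖vec k‖ := by
      have : 1 ≤ ‖vec k‖ ^ 2 := by rw [h1]; exact hNa
      exact (one_le_sq_iff₀ (norm_nonneg _)).mp this
    have h3 : ‖vec k‖ ≤ N a := by
      rw [← h1, sq]
      nlinarith
    calc ‖vec k‖ ^ m * ‖e a k‖ ≤ ‖vec k‖ ^ m * 1 :=
          mul_le_mul_of_nonneg_left (e_le h a k) (pow_nonneg (norm_nonneg _) _)
      _ = ‖vec k‖ ^ m := mul_one _
      _ ≤ N a ^ m := pow_le_pow_left₀ (norm_nonneg _) h3 m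

lemma rap_e (h : Modes o σ N e) (hN : ∀ i, 1 ≤ N i) (a : Ix J) : Rap (e a) := fun m =>
  ⟨N a ^ m, fun k => pow_e_le h hN a k m⟩

/-! ### Synthesis -/

lemma syn_sum (h : Modes o σ N e) {z : Ix J → ℝ} (hz : Summable (fun a => |z a|)) :
    Summable (fun p : Ix J × Z3 => ‖z p.1 • e p.1 p.2‖) := by
  rw [summable_prod_of_nonneg (fun _ => norm_nonneg _)]
  have h1 : ∀ a, Summable (fun k => ‖z a • e a k‖) := by
    intro a
    simp only [norm_smul]
    exact (e_summable h a).mul_left _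
  refine ⟨h1, ?_⟩
  refine Summable.of_nonneg_of_le (fun a => tsum_nonneg (fun _ => norm_nonneg _)) (fun a => ?_)
    (hz.mul_right 24)
  simp only [norm_smul, Real.norm_eq_abs]
  rw [tsum_mul_left]
  exact mul_le_mul_of_nonneg_left (l1 h a) (abs_nonneg _)

lemma syn_sum' (h : Modes o σ N e) {z : Ix J → ℝ} (hz : Summable (fun a => |z a|)) (k : Z3) :
    Summable (fun a => ‖z a • e a k‖) :=
  (syn_sum h hz).prod_symm.prod_factor k

lemma syn_ot (h : Modes o σ N e) {z : Ix J → ℝ} (hz : Summable (fun a => |z a|)) :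
    OT (syn e z) := by
  constructor
  · intro k
    unfold syn
    rw [← tsum_neg]
    apply tsum_congr
    intro a
    rw [(h.ot a).odd k, smul_neg]
  · intro k
    unfold syn
    have h1 : Summable (fun a => z a • e a k) := (syn_sum' h hz k).of_norm
    have h2 := (innerSL ℝ (vec k)).map_tsum h1
    simp only [innerSL_apply_apply] at h2
    rw [h2]
    simp only [inner_smul_right, (h.ot _).tan, mul_zero, tsum_zero]

/-- the norms of the synthesised family -/
lemma syn_norm (h : Modes o σ N e) (hN : ∀ i, 1 ≤ N i) {z : Ix J → ℝ} (m : ℕ)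
    (hz : Summable (fun a => |z a|)) (hz' : Summable (fun a => |z a| * N a ^ m)) (k : Z3) :
    ‖vec k‖ ^ m * ‖syn e z k‖ ≤ ∑' a, |z a| * N a ^ m := by
  have h1 := syn_sum' h hz k
  have h2 : ‖syn e z k‖ ≤ ∑' a, ‖z a • e a k‖ := norm_tsum_le_tsum_norm h1
  calc ‖vec k‖ ^ m * ‖syn e z k‖ ≤ ‖vec k‖ ^ m * ∑' a, ‖z a • e a k‖ :=
        mul_le_mul_of_nonneg_left h2 (by positivity)
    _ = ∑' a, ‖vec k‖ ^ m * ‖z a • e a k‖ := by rw [tsum_mul_left]
    _ ≤ ∑' a, |z a| * N a ^ m := by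
        refine (h1.mul_left _).tsum_le_tsum (fun a => ?_) hz'
        rw [norm_smul, Real.norm_eq_abs]
        have := pow_e_le h hN a k m
        calc ‖vec k‖ ^ m * (|z a| * ‖e a k‖) = |z a| * (‖vec k‖ ^ m * ‖e a k‖) := by ring
          _ ≤ |z a| * N a ^ m := mul_le_mul_of_nonneg_left this (abs_nonneg _)

lemma pair_syn (h : Modes o σ N e) {z : Ix J → ℝ} (hz : Summable (fun a => |z a|)) (W : Fam)
    (Cw : ℝ) (hW : ∀ k, ‖W k‖ ≤ Cw) : pair W (syn e z) = ∑' a, z a * pair W (e a) := by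
  unfold pair syn
  have hs : Summable (Function.uncurry fun (a : Ix J) (k : Z3) =>
      z a * inner ℝ (W k) (e a k)) := by
    refine Summable.of_norm_bounded ((syn_sum h hz).mul_left Cw) (fun p => ?_)
    simp only [Function.uncurry]
    rw [norm_mul, norm_smul]
    have h1 : ‖inner ℝ (W p.2) (e p.1 p.2)‖ ≤ Cw * ‖e p.1 p.2‖ :=
      (norm_inner_le_norm _ _).trans (mul_le_mul_of_nonneg_right (hW _) (norm_nonneg _))
    calc ‖z p.1‖ * ‖inner ℝ (W p.2) (e p.1 p.2)‖ ≤ ‖z p.1‖ * (Cw * ‖e p.1 p.2‖) :=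
          mul_le_mul_of_nonneg_left h1 (norm_nonneg _)
      _ = Cw * (‖z p.1‖ * ‖e p.1 p.2‖) := by ring
  have h1 := hs.tsum_comm
  have h2 : ∀ k : Z3, inner ℝ (W k) (∑' a, z a • e a k) =
      ∑' a, z a * inner ℝ (W k) (e a k) := by
    intro k
    have h3 := (innerSL ℝ (W k)).map_tsum (syn_sum' h hz k).of_norm
    simp only [innerSL_apply_apply] at h3
    rw [h3]
    simp only [inner_smul_right]
  rw [tsum_congr h2, h1]
  apply tsum_congr
  intro a
  rw [tsum_mul_left]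

lemma pair_syn_e (h : Modes o σ N e) {z : Ix J → ℝ} (hz : Summable (fun a => |z a|))
    (b : Ix J) : pair (syn e z) (e b) = z b := by
  rw [Pool.Agent.Y275.ND.pair_comm, pair_syn h hz (e b) 1 (e_le h b)]
  rw [tsum_eq_single b]
  · rw [(h.orth b b).1 rfl, mul_one]
  · intro a hab
    rw [(h.orth b a).2 (Ne.symm hab), mul_zero]

/-- Parseval -/
lemma pair_self (h : Modes o σ N e) (hN : ∀ i, 1 ≤ N i) {z : Ix J → ℝ}
    (hz : Summable (fun a => |z a|)) : pair (syn e z) (syn e z) = ∑' a, z a ^ 2 := by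
  have hle : ∀ k, ‖syn e z k‖ ≤ ∑' a, |z a| := by
    intro k
    have h1 := syn_norm h hN 0 hz (by simpa using hz) k
    simpa using h1
  rw [pair_syn h hz (syn e z) _ hle]
  apply tsum_congr
  intro a
  rw [pair_syn_e h hz, sq]

/-- the nonlinearity -/
lemma bil_syn (h : Modes o σ N e) (hN : ∀ i, 1 ≤ N i) {z : Ix J → ℝ}
    (hz : Summable (fun a => |z a|)) (i : Ix J) :
    qd (fun i a b => bil (e a) (e b) (e i)) z i = bil (syn e z) (syn e z) (e i) := by
  have hzz := syn_sum h hz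
  have hsum : Summable (Function.uncurry fun (p : Ix J × Ix J) (q : Z3 × Z3) =>
      (z p.1 * inner ℝ (e p.1 q.1) (vec q.2)) *
        (z p.2 * inner ℝ (e p.2 (q.2 - q.1)) (e i q.2))) := by
    have h1 := (Summable.mul_of_nonneg hzz hzz (fun _ => norm_nonneg _)
      (fun _ => norm_nonneg _)).mul_left (N i)
    let φ : (Ix J × Ix J) × (Z3 × Z3) → (Ix J × Z3) × (Ix J × Z3) :=
      fun x => ((x.1.1, x.2.1), (x.1.2, x.2.2 - x.2.1))
    have hφ : Function.Injective φ := by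
      rintro ⟨⟨a, b⟩, ⟨p, k⟩⟩ ⟨⟨a', b'⟩, ⟨p', k'⟩⟩ hx
      simp only [φ, Prod.mk.injEq] at hx
      obtain ⟨⟨h1, h2⟩, h3, h4⟩ := hx
      subst h1 h2 h3
      have : k = k' := by
        have h5 := congrArg (· + p) h4
        simpa using h5
      rw [this]
    have h2 := h1.comp_injective hφ
    refine Summable.of_norm_bounded h2 (fun x => ?_)
    obtain ⟨⟨a, b⟩, ⟨p, k⟩⟩ := x
    simp only [Function.uncurry, Function.comp_apply, φ]
    have h3 : ‖inner ℝ (e a p) (vec k)‖ ≤ ‖e a p‖ * ‖vec k‖ := norm_inner_le_norm _ _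
    have h4 : ‖inner ℝ (e b (k - p)) (e i k)‖ ≤ ‖e b (k - p)‖ * ‖e i k‖ := norm_inner_le_norm _ _
    have h5 := pow_e_le h hN i k 1
    rw [pow_one, pow_one] at h5
    rw [norm_mul, norm_mul, norm_mul, norm_smul, norm_smul]
    calc ‖z a‖ * ‖inner ℝ (e a p) (vec k)‖ * (‖z b‖ * ‖inner ℝ (e b (k - p)) (e i k)‖)
        ≤ ‖z a‖ * (‖e a p‖ * ‖vec k‖) * (‖z b‖ * (‖e b (k - p)‖ * ‖e i k‖)) := by
          gcongr
      _ = (‖vec k‖ * ‖e i k‖) * (‖z a‖ * ‖e a p‖ * (‖z b‖ * ‖e b (k - p)‖)) := by ring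
      _ ≤ N i * (‖z a‖ * ‖e a p‖ * (‖z b‖ * ‖e b (k - p)‖)) :=
          mul_le_mul_of_nonneg_right h5 (by positivity)
  unfold qd bil
  have hA : ∀ k p : Z3, inner ℝ (syn e z p) (vec k) = ∑' a, z a * inner ℝ (e a p) (vec k) := by
    intro k p
    unfold syn
    have h3 := (innerSL ℝ (vec k)).map_tsum (syn_sum' h hz p).of_norm
    simp only [innerSL_apply_apply] at h3
    rw [real_inner_comm, h3]
    apply tsum_congr
    intro a
    rw [inner_smul_right, real_inner_comm]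
  have hB : ∀ k p : Z3, inner ℝ (syn e z p) (e i k) = ∑' a, z a * inner ℝ (e a p) (e i k) := by
    intro k p
    unfold syn
    have h3 := (innerSL ℝ (e i k)).map_tsum (syn_sum' h hz p).of_norm
    simp only [innerSL_apply_apply] at h3
    rw [real_inner_comm, h3]
    apply tsum_congr
    intro a
    rw [inner_smul_right, real_inner_comm]
  have hsA : ∀ k p : Z3, Summable (fun a => ‖z a * inner ℝ (e a p) (vec k)‖) := by
    intro k p
    refine Summable.of_nonneg_of_le (fun _ => norm_nonneg _) (fun a => ?_)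
      ((syn_sum' h hz p).mul_right ‖vec k‖)
    rw [norm_mul, norm_smul, mul_assoc]
    exact mul_le_mul_of_nonneg_left (norm_inner_le_norm _ _) (norm_nonneg _)
  have hsB : ∀ k p : Z3, Summable (fun a => ‖z a * inner ℝ (e a p) (e i k)‖) := by
    intro k p
    refine Summable.of_nonneg_of_le (fun _ => norm_nonneg _) (fun a => ?_)
      ((syn_sum' h hz p).mul_right ‖e i k‖)
    rw [norm_mul, norm_smul, mul_assoc]
    exact mul_le_mul_of_nonneg_left (norm_inner_le_norm _ _) (norm_nonneg _)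
  have h1 : ∀ q : Z3 × Z3, inner ℝ (syn e z q.1) (vec q.2) *
      inner ℝ (syn e z (q.2 - q.1)) (e i q.2) = ∑' p : Ix J × Ix J,
      (z p.1 * inner ℝ (e p.1 q.1) (vec q.2)) *
        (z p.2 * inner ℝ (e p.2 (q.2 - q.1)) (e i q.2)) := by
    intro q
    rw [hA, hB]
    exact tsum_mul_tsum_of_summable_norm (hsA q.2 q.1) (hsB q.2 (q.2 - q.1))
  rw [tsum_congr h1, hsum.tsum_comm, ← tsum_mul_left]
  apply tsum_congr
  intro p
  have h2 : ∑' q : Z3 × Z3, z p.1 * inner ℝ (e p.1 q.1) (vec q.2) *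
      (z p.2 * inner ℝ (e p.2 (q.2 - q.1)) (e i q.2)) =
      (z p.1 * z p.2) * ∑' q : Z3 × Z3, inner ℝ (e p.1 q.1) (vec q.2) *
      inner ℝ (e p.2 (q.2 - q.1)) (e i q.2) := by
    rw [← tsum_mul_left]
    apply tsum_congr
    intro q
    ring
  rw [h2]
  ring

/-! ### Weights -/

lemma sum_of_dec (hN : ∀ i, 1 ≤ N i) {p : ℕ} (hp : Summable (fun i => (N i ^ p)⁻¹)) (m : ℕ)
    (C : ℝ) (z : Ix J → ℝ) (hz : ∀ a, N a ^ (m + p) * |z a| ≤ C) :
    Summable (fun a => |z a| * N a ^ m) ∧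
      ∑' a, |z a| * N a ^ m ≤ C * ∑' a, (N a ^ p)⁻¹ := by
  have h1 : ∀ a, |z a| * N a ^ m ≤ C * (N a ^ p)⁻¹ := by
    intro a
    have h2 : 0 < N a ^ p := pow_pos (by linarith [hN a]) _
    rw [← div_eq_mul_inv, le_div_iff₀ h2]
    calc |z a| * N a ^ m * N a ^ p = N a ^ (m + p) * |z a| := by rw [pow_add]; ring
      _ ≤ C := hz a
  have h3 : Summable (fun a => |z a| * N a ^ m) :=
    Summable.of_nonneg_of_le
      (fun a => mul_nonneg (abs_nonneg _) (pow_nonneg (by linarith [hN a]) _)) h1 (hp.mul_left C)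
  refine ⟨h3, ?_⟩
  rw [← tsum_mul_left]
  exact h3.tsum_le_tsum h1 (hp.mul_left C)

lemma sum0_of_dec (hN : ∀ i, 1 ≤ N i) {p : ℕ} (hp : Summable (fun i => (N i ^ p)⁻¹))
    (C : ℝ) (z : Ix J → ℝ) (hz : ∀ a, N a ^ p * |z a| ≤ C) : Summable (fun a => |z a|) := by
  have := (sum_of_dec hN hp 0 C z (by simpa using hz)).1
  simpa using this

/-- Cauchy-Schwarz on a sphere -/
lemma dir_ge (h : Modes o σ N e) (V : Fam) (hV : Summable (fun k => ‖vec k‖ ^ 2 * ‖V k‖ ^ 2))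
    (hN : ∀ i, 1 ≤ N i) (a : Ix J) :
    N a * pair V (e a) ^ 2 ≤ ∑' k, ‖vec k‖ ^ 2 * ‖V k‖ ^ 2 := by
  set T := (h.few a).1.toFinset with hT
  have h0 : ∑ k ∈ T, ‖e a k‖ ^ 2 = 1 := by
    have h1 := (h.orth a a).1 rfl
    rw [pair_eq_sum h] at h1
    rw [← h1]
    exact Finset.sum_congr rfl (fun k _ => (real_inner_self_eq_norm_sq _).symm)
  have h1 : pair V (e a) ^ 2 ≤ ∑ k ∈ T, ‖V k‖ ^ 2 := by
    rw [pair_eq_sum h]
    have h2 : |∑ k ∈ T, inner ℝ (V k) (e a k)| ≤ ∑ k ∈ T, ‖V k‖ * ‖e a k‖ :=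
      (Finset.abs_sum_le_sum_abs _ _).trans
        (Finset.sum_le_sum fun k _ => abs_real_inner_le_norm _ _)
    have h3 := Finset.sum_mul_sq_le_sq_mul_sq T (fun k => ‖V k‖) (fun k => ‖e a k‖)
    rw [h0, mul_one] at h3
    refine le_trans ?_ h3
    rw [← sq_abs]
    exact pow_le_pow_left₀ (abs_nonneg _) h2 2
  have hNa : 0 ≤ N a := by linarith [hN a]
  calc N a * pair V (e a) ^ 2 ≤ N a * ∑ k ∈ T, ‖V k‖ ^ 2 := mul_le_mul_of_nonneg_left h1 hNa
    _ = ∑ k ∈ T, ‖vec k‖ ^ 2 * ‖V k‖ ^ 2 := by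
        rw [Finset.mul_sum]
        refine Finset.sum_congr rfl (fun k hk => ?_)
        rw [hT, Set.Finite.mem_toFinset] at hk
        rw [h.supp a k hk]
    _ ≤ ∑' k, ‖vec k‖ ^ 2 * ‖V k‖ ^ 2 := hV.sum_le_tsum _ (fun _ _ => by positivity)

lemma syn_init {z : Ix J → ℝ} (h0 : z (Sum.inl 0) = 1) (h1 : ∀ n, z (Sum.inl (n + 1)) = 0)
    (h2 : ∀ w, z (Sum.inr w) = 0) : syn e z = e (Sum.inl 0) := by
  funext k
  unfold syn
  rw [tsum_eq_single (Sum.inl 0)]
  · rw [h0, one_smul]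
  · intro a ha
    cases a with
    | inl n =>
      cases n with
      | zero => exact absurd rfl ha
      | succ n => rw [h1, zero_smul]
    | inr w => rw [h2, zero_smul]

end Pool.Agent.Y925.EK
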